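import Mathlib
import Pool.Agent.N754.LT.Cur
import Pool.Agent.N754.LT.Ext

/-!
The two halves of the construction of curves: the functional on exponents, and the curves.
-/

set_option autoImplicit false
set_option linter.unusedSectionVars false

open Finset MvPolynomial Filter

namespace Pool.Agent.N754.FG

open Pool.Agent.N754.LT
open Pool.Agent.H159R3.Exp (Laur)

theorem exists_fun {k R : Type} [Field k] [CommRing R] [IsDomain R] [Algebra k R] (D : Dc k R)
    {r n : ℕ} (hr : 1 ≤ r) (wR : Fin r → Rˣ)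
    (hwRAI : AlgebraicIndependent k (fun j => (wR j : R))) (U : Finset (Fin n))
    (a : Fin n → Fin r → ℤ) (hspan : ∀ j, Pi.single j 1 ∈ Submodule.span ℤ (a '' U))
    (p q : Fin n → MvPolynomial (Fin r) k)
    (hqU : ∀ i ∈ U, ∀ b ∈ (q i).support, ∀ b' ∈ (q i).support, b = b')
    (hpq : ∀ i, i ∉ U → IsRelPrime (q i) (p i)) (hq : ∀ i, q i ≠ 0) (yR : Fin n → R)
    (hqR : ∀ i, aeval (fun j => (wR j : R)) (q i) * yR i = aeval (fun j => (wR j : R)) (p i))
    (hone : ∃ C : ℝ, 0 ≤ C ∧ D.Neg (fun ω => D.one ω -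
      C * (∑ j, |D.lg (wR j : R) ω| + ∑ i, max (D.lg (yR i) ω) 0)))
    (hnn : ¬ D.Neg D.one) :
    ∃ l : Fin r → ℤ, (∃ i0 ∈ U, ∑ j, l j * a i0 j ≠ 0) ∧
      ∀ i, ∀ b ∈ (q i).support, ∀ b' ∈ (q i).support,
        ∑ j, l j * (b j : ℤ) = ∑ j, l j * (b' j : ℤ) := by
  classical
  -- low support
  have hlow : ∀ i, ∀ b ∈ (q i).support, ∀ b' ∈ (q i).support,
      (fun j => (b j : ℤ) - b' j) ∈ lowSub D wR := by
    intro i b hb b' hb'
    by_cases hi : i ∈ U
    · have h1 := hqU i hi b hb b' hb'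
      have h2 : (fun j => (b j : ℤ) - b' j) = 0 := by
        funext j
        rw [h1, sub_self, Pi.zero_apply]
      rw [h2]
      exact Submodule.zero_mem _
    · have h1 := quot_neg D wR hwRAI (p i) (q i) (hq i) (hpq i hi) (yR i) (hqR i) hr
      have h2 := supp_low D wR hwRAI (q i) h1 b b' hb hb'
      rw [mem_lowSub]
      refine D.neg_mono _ _ ?_ h2
      filter_upwards [lg_mon D wR (fun j => b j), lg_mon D wR (fun j => b' j)] with ω g1 g2
      rw [g1, g2, ← Finset.sum_sub_distrib]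
      refine le_of_eq (congrArg _ (Finset.sum_congr rfl fun j _ => ?_))
      push_cast
      ring
  -- a high unit
  have hhigh : ∃ i ∈ U, a i ∉ lowSub D wR := by
    by_contra hcon
    push Not at hcon
    have h1 : ∀ j, (Pi.single j 1 : Fin r → ℤ) ∈ lowSub D wR := by
      intro j
      refine Submodule.span_le.2 ?_ (hspan j)
      rintro _ ⟨i, hi, rfl⟩
      exact hcon i hi
    have h2 : ∀ j, D.Neg (fun ω => |D.lg (wR j : R) ω|) := by
      intro j
      refine D.neg_mono _ _ (Filter.Eventually.of_forall fun ω => ?_)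
        ((mem_lowSub D wR _).1 (h1 j))
      rw [Finset.sum_eq_single j]
      · rw [Pi.single_eq_same]
        simp
      · intro l _ hl
        rw [Pi.single_eq_of_ne hl]
        simp
      · intro h
        exact absurd (Finset.mem_univ _) h
    have h3 : D.Neg (fun ω => ∑ j, |D.lg (wR j : R) ω|) := D.neg_sum _ _ fun j _ => h2 j
    have h4 : ∀ i, D.Neg (fun ω => max (D.lg (yR i) ω) 0) := by
      intro i
      obtain ⟨M, hM, h5⟩ := quot_le D wR hwRAI (p i) (q i) (hq i) (yR i) (hqR i)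
      refine D.neg_mono _ _ (Filter.Eventually.of_forall fun ω => ?_)
        (D.neg_add _ _ h5 (D.neg_smul _ M hM h3))
      linarith
    obtain ⟨C, hC, h5⟩ := hone
    apply hnn
    refine D.neg_mono _ _ (Filter.Eventually.of_forall fun ω => ?_)
      (D.neg_add _ _ h5 (D.neg_smul _ C hC (D.neg_add _ _ h3 (D.neg_sum Finset.univ _
        fun i _ => h4 i))))
    linarith
  obtain ⟨i0, hi0, hai0⟩ := hhigh
  obtain ⟨l, hl, hl0⟩ := exists_functional (lowSub D wR) (fun m b => lowSub_sat D wR m b)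
    (a i0) hai0
  have hom : ∀ i, ∀ b ∈ (q i).support, ∀ b' ∈ (q i).support,
      ∑ j, l j * (b j : ℤ) = ∑ j, l j * (b' j : ℤ) := by
    intro i b hb b' hb'
    have h1 := hl _ (hlow i b hb b' hb')
    rw [← sub_eq_zero, ← Finset.sum_sub_distrib, ← h1]
    exact Finset.sum_congr rfl fun j _ => (mul_sub _ _ _).symm
  exact ⟨l, ⟨i0, hi0, hl0⟩, hom⟩

variable {k B : Type} [Field k] [CharZero k] [CommRing B] [IsDomain B] [Algebra k B] (ρ : Rp k B)
  {n : ℕ}

theorem curve_of_fun {U : Finset (Fin n)} {y : Fin n → B} {𝒲 : Subgroup Bˣ} (d : Dat k U y 𝒲)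
    (l : Fin d.r → ℤ) (i0 : Fin n) (hi0 : i0 ∈ U) (hl0 : ∑ j, l j * d.a i0 j ≠ 0)
    (hom : ∀ i, ∀ b ∈ (d.q i).support, ∀ b' ∈ (d.q i).support,
        ∑ j, l j * (b j : ℤ) = ∑ j, l j * (b' j : ℤ)) {ι : Type} [Finite ι]
    (F : ι → MvPolynomial (Fin n) k) (hF : ∀ l, aeval y (F l) = 0) :
    ∀ᶠ t in ρ.G, CurveAt ρ F y t := by
  classical
  -- the eventual conditions
  have e1 : ∀ᶠ t in ρ.G, ∀ j, ρ.rep (d.w j : B) t ≠ 0 :=
    (Filter.eventually_all).2 fun j => ρ.rep_ne _ (Units.ne_zero _)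
  have e2 : ∀ᶠ t in ρ.G, ∀ i, eval (fun j => ρ.rep (d.w j : B) t) (d.q i) ≠ 0 := by
    refine (Filter.eventually_all).2 fun i => ?_
    have h1 : aeval (fun j => (d.w j : B)) (d.q i) ≠ 0 := by
      intro h
      exact d.hq i (d.hw (by rw [h, map_zero]))
    filter_upwards [ρ.rep_ne _ h1, ρ.rep_aeval (fun j => (d.w j : B)) (d.q i)] with t g1 g2
    rwa [← g2]
  have e3 : ∀ᶠ t in ρ.G, ∀ i, eval (fun j => ρ.rep (d.w j : B) t) (d.q i) * ρ.rep (y i) t =
      eval (fun j => ρ.rep (d.w j : B) t) (d.p i) := by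
    refine (Filter.eventually_all).2 fun i => ?_
    filter_upwards [ρ.rep_aeval (fun j => (d.w j : B)) (d.q i),
      ρ.rep_aeval (fun j => (d.w j : B)) (d.p i),
      ρ.rep_mul (aeval (fun j => (d.w j : B)) (d.q i)) (y i)] with t g1 g2 g3
    rw [← g1, ← g2, ← g3, d.hqp]
  -- relation between the polynomials of a unit coordinate
  let em : Fin d.r →₀ ℕ := Finsupp.equivFunOnFinite.symm fun j => (-d.a i0 j).toNat
  let ep : Fin d.r →₀ ℕ := Finsupp.equivFunOnFinite.symm fun j => (d.a i0 j).toNat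
  have hrel : d.q i0 * monomial ep (d.c i0) = d.p i0 * monomial em 1 := by
    apply d.hw
    rw [map_mul, map_mul, aeval_monomial, aeval_monomial,
      Finsupp.prod_fintype _ _ (fun _ => pow_zero _),
      Finsupp.prod_fintype _ _ (fun _ => pow_zero _), map_one, one_mul, ← d.hqp, d.hU i0 hi0]
    have hmonB : ∀ (e : Fin d.r → ℕ), (∏ j, (d.w j : B) ^ e j) =
        ((∏ j, d.w j ^ e j : Bˣ) : B) := fun e => by
      rw [Units.coe_prod]
      exact Finset.prod_congr rfl fun j _ => (Units.val_pow_eq_pow_val _ _).symm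
    rw [hmonB, hmonB]
    have h1 : (∏ j, d.w j ^ em j) * (∏ j, d.w j ^ d.a i0 j) = ∏ j, d.w j ^ ep j := by
      rw [← Finset.prod_mul_distrib]
      refine Finset.prod_congr rfl fun j _ => ?_
      rw [← zpow_natCast, ← zpow_natCast, ← zpow_add]
      congr 1
      have h2 : em j = (-d.a i0 j).toNat := rfl
      have h3 : ep j = (d.a i0 j).toNat := rfl
      rw [h2, h3]
      omega
    rw [← h1, Units.val_mul]
    ring
  filter_upwards [e1, e2, e3] with t h1 h2 h3
  set w0 : Fin d.r → k := fun j => ρ.rep (d.w j : B) t with hw0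
  obtain ⟨v, hv1, hv2, hv3⟩ := curve_of_data l d.p d.q hom d.hq F (fun j => (d.w j : B)) d.hw y
    d.hqp hF w0 h1 h2
  have hs1 : (fun j => w0 j * (1 : k) ^ l j) = w0 := by
    funext j
    rw [one_zpow, mul_one]
  refine ⟨v, hv1, hv2, ?_, i0, ?_⟩
  · funext i
    have h4 := hv3 1 one_ne_zero i
    rw [hs1, ← h3 i] at h4
    exact mul_left_cancel₀ (h2 i) h4
  · intro heq
    -- `q(w0 2^l) v(2) = p(w0 2^l)`
    have h5 : ∀ s : k, s ≠ 0 → eval (fun j => w0 j * s ^ l j) (d.q i0) ≠ 0 := by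
      intro s hs
      obtain ⟨b, hb⟩ := MvPolynomial.support_nonempty.2 (d.hq i0)
      rw [eval_hom l (d.q i0) (∑ j, l j * (b j : ℤ)) (fun b' hb' => hom i0 b' hb' b hb) w0 s hs]
      exact mul_ne_zero (zpow_ne_zero _ hs) (h2 i0)
    have h6 : ∀ s : k, s ≠ 0 → v s i0 * ∏ j, (w0 j * s ^ l j) ^ em j =
        d.c i0 * ∏ j, (w0 j * s ^ l j) ^ ep j := by
      intro s hs
      have h7 := congrArg (eval (fun j => w0 j * s ^ l j)) hrel
      rw [map_mul, map_mul, eval_monomial, eval_monomial,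
        Finsupp.prod_fintype _ _ (fun _ => pow_zero _),
        Finsupp.prod_fintype _ _ (fun _ => pow_zero _), one_mul, ← hv3 s hs i0, mul_assoc] at h7
      exact (mul_left_cancel₀ (h5 s hs) h7).symm
    have h7 : ∀ s : k, s ≠ 0 → ∀ e : Fin d.r → ℕ, ∏ j, (w0 j * s ^ l j) ^ e j =
        (∏ j, w0 j ^ e j) * s ^ (∑ j, l j * (e j : ℤ)) := by
      intro s hs e
      simp only [mul_pow]
      rw [Finset.prod_mul_distrib]
      congr 1
      have h8 : ∀ T : Finset (Fin d.r), ∏ j ∈ T, (s ^ l j) ^ e j =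
          s ^ (∑ j ∈ T, l j * (e j : ℤ)) := by
        intro T
        induction T using Finset.induction_on with
        | empty => simp
        | insert i T hi ih =>
          rw [Finset.prod_insert hi, Finset.sum_insert hi, zpow_add₀ hs, ih, zpow_mul,
            zpow_natCast]
      exact h8 _
    have h20 : (2 : k) ≠ 0 := two_ne_zero
    have g1 := h6 1 one_ne_zero
    have g2 := h6 2 h20
    rw [h7 _ h20, h7 _ h20, heq] at g2
    rw [h7 _ one_ne_zero, h7 _ one_ne_zero, one_zpow, one_zpow, mul_one, mul_one] at g1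
    have hE : ∑ j, l j * (ep j : ℤ) - ∑ j, l j * (em j : ℤ) = ∑ j, l j * d.a i0 j := by
      rw [← Finset.sum_sub_distrib]
      refine Finset.sum_congr rfl fun j _ => ?_
      have e2 : em j = (-d.a i0 j).toNat := rfl
      have e3 : ep j = (d.a i0 j).toNat := rfl
      rw [← mul_sub, e2, e3]
      congr 1
      omega
    have hne : d.c i0 * ∏ j, w0 j ^ ep j ≠ 0 :=
      mul_ne_zero (d.hc i0) (Finset.prod_ne_zero_iff.2 fun j _ => pow_ne_zero _ (h1 j))
    have g3 : (2 : k) ^ (∑ j, l j * (em j : ℤ)) = (2 : k) ^ (∑ j, l j * (ep j : ℤ)) := by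
      have g4 : (d.c i0 * ∏ j, w0 j ^ ep j) * (2 : k) ^ (∑ j, l j * (em j : ℤ)) =
          (d.c i0 * ∏ j, w0 j ^ ep j) * (2 : k) ^ (∑ j, l j * (ep j : ℤ)) := by
        rw [← g1]
        linear_combination g2 - (2 : k) ^ (∑ j, l j * (ep j : ℤ)) * g1
      exact mul_left_cancel₀ hne g4
    have g5 : (2 : k) ^ (∑ j, l j * d.a i0 j) = 1 := by
      rw [← hE, zpow_sub₀ h20, g3, div_self (zpow_ne_zero _ h20)]
    exact two_zpow_ne _ hl0 g5

end Pool.Agent.N754.FG
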