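import Mathlib
import Pool.Agent.N754.FG.Fun
import Pool.Agent.N754.LT.Ari

/-!
The functional on exponents, from data over a number field.
-/

set_option autoImplicit false
set_option linter.unusedSectionVars false

open Finset MvPolynomial Filter

namespace Pool.Agent.N754.FG

open NumberField IsDedekindDomain
open Pool.Agent.N754.LT
open Pool.Agent.Y742.SF Pool.Agent.Y742.AR
open Pool.Agent.W235.RM Pool.Agent.H159R3.Exp

variable {M : Type} [Field M] [NumberField M] [IsGalois ℚ M] (D : PD M) (𝒰 : Ultrafilter ℕ)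

theorem funA {n r : ℕ} (hr : 1 ≤ r) (U : Finset (Fin n)) (a : Fin n → Fin r → ℤ)
    (hspan : ∀ j, Pi.single j 1 ∈ Submodule.span ℤ (a '' U)) (p q : Fin n → MvPolynomial (Fin r) M)
    (hqU : ∀ i ∈ U, ∀ b ∈ (q i).support, ∀ b' ∈ (q i).support, b = b')
    (hpq : ∀ i, i ∉ U → IsRelPrime (q i) (p i)) (hq : ∀ i, q i ≠ 0) (w : Fin r → (BA M 𝒰)ˣ)
    (hw𝒲 : ∀ j, w j ∈ WA D 𝒰) (hwAI : AlgebraicIndependent M (fun j => (w j : BA M 𝒰)))
    (hnc : ∀ j, ∀ c : M, (w j : BA M 𝒰) ≠ algebraMap M (BA M 𝒰) c) (y : Fin n → BA M 𝒰)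
    (hy : ∀ i, y i ∈ TIR D 𝒰)
    (hqp : ∀ i, aeval (fun j => (w j : BA M 𝒰)) (q i) * y i =
      aeval (fun j => (w j : BA M 𝒰)) (p i)) :
    ∃ l : Fin r → ℤ, (∃ i0 ∈ U, ∑ j, l j * a i0 j ≠ 0) ∧
      ∀ i, ∀ b ∈ (q i).support, ∀ b' ∈ (q i).support,
        ∑ j, l j * (b j : ℤ) = ∑ j, l j * (b' j : ℤ) := by
  classical
  -- the scale
  let rp : BA M 𝒰 → ℕ → M := fun x => rep (K := M) (𝒰 := 𝒰) x
  let s : (((M ≃ₐ[ℚ] M) ⊕ Fin D.s) → ℕ → ℝ) := fun v t =>
    ∑ j, |Real.log (D.av v (rp (w j : BA M 𝒰) t))| + ∑ i, max (Real.log (D.av v (rp (y i) t))) 0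
  have hs0 : ∀ v t, 0 ≤ s v t := fun v t => add_nonneg
    (Finset.sum_nonneg fun _ _ => abs_nonneg _) (Finset.sum_nonneg fun _ _ => le_max_right _ _)
  let N : ℕ → ℝ := fun t => 1 + ∑ v, s v t
  have hN : ∀ t, 1 ≤ N t := fun t => by
    have : 0 ≤ ∑ v, s v t := Finset.sum_nonneg fun _ _ => hs0 _ _
    simp only [N]
    linarith
  have hsN : ∀ v t, s v t ≤ N t := by
    intro v t
    have h1 : s v t ≤ ∑ v, s v t :=
      Finset.single_le_sum (f := fun v => s v t) (fun _ _ => hs0 _ _) (Finset.mem_univ v)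
    simp only [N]
    linarith
  have hwN : ∀ v t j, |Real.log (D.av v (rp (w j : BA M 𝒰) t))| ≤ N t := by
    intro v t j
    refine le_trans ?_ (hsN v t)
    have h1 : |Real.log (D.av v (rp (w j : BA M 𝒰) t))| ≤
        ∑ j, |Real.log (D.av v (rp (w j : BA M 𝒰) t))| :=
      Finset.single_le_sum (f := fun j => |Real.log (D.av v (rp (w j : BA M 𝒰) t))|)
        (fun _ _ => abs_nonneg _) (Finset.mem_univ j)
    have h2 : 0 ≤ ∑ i, max (Real.log (D.av v (rp (y i) t))) 0 :=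
      Finset.sum_nonneg fun _ _ => le_max_right _ _
    simp only [s]
    linarith
  have hyN : ∀ v t i, Real.log (D.av v (rp (y i) t)) ≤ N t := by
    intro v t i
    refine le_trans ?_ (hsN v t)
    have h1 : max (Real.log (D.av v (rp (y i) t))) 0 ≤
        ∑ i, max (Real.log (D.av v (rp (y i) t))) 0 :=
      Finset.single_le_sum (f := fun i => max (Real.log (D.av v (rp (y i) t))) 0)
        (fun _ _ => le_max_right _ _) (Finset.mem_univ i)
    have h2 : 0 ≤ ∑ j, |Real.log (D.av v (rp (w j : BA M 𝒰) t))| :=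
      Finset.sum_nonneg fun _ _ => abs_nonneg _
    have h3 := le_max_left (Real.log (D.av v (rp (y i) t))) 0
    simp only [s]
    linarith
  have hNt : Tendsto N (𝒰 : Filter ℕ) atTop := by
    refine tendsto_of_unbdd N ?_
    rintro ⟨C, hC⟩
    let j0 : Fin r := ⟨0, hr⟩
    obtain ⟨c, hc⟩ := const_of_bdd (D := D) (𝒰 := 𝒰) (w j0 : BA M 𝒰) (hw𝒲 j0).1
      (Real.exp C) (by
        filter_upwards [hC, Pool.Agent.Y742.AR.rep_ne (K := M) (𝒰 := 𝒰) (w j0 : BA M 𝒰)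
          (Units.ne_zero _)] with t h1 h2 v
        rw [← Real.log_le_iff_le_exp (D.av_pos v _ h2)]
        exact ((le_abs_self _).trans (hwN v t j0)).trans h1)
    exact hnc j0 c hc
  -- the elements of the ring
  have hwB : ∀ j, Bd D N 𝒰 (rp (w j : BA M 𝒰)) := by
    intro j
    refine ⟨1, zero_le_one, ?_⟩
    filter_upwards [Pool.Agent.Y742.AR.rep_ne (K := M) (𝒰 := 𝒰) (w j : BA M 𝒰)
      (Units.ne_zero _)] with t h2 v
    rw [one_mul, ← Real.log_le_iff_le_exp (D.av_pos v _ h2)]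
    exact (le_abs_self _).trans (hwN v t j)
  have hwB' : ∀ j, Bd D N 𝒰 (rp ((w j)⁻¹ : (BA M 𝒰)ˣ)) := by
    intro j
    refine ⟨1, zero_le_one, ?_⟩
    rw [Units.val_inv_eq_inv_val]
    filter_upwards [Pool.Agent.Y742.AR.rep_ne (K := M) (𝒰 := 𝒰) (w j : BA M 𝒰)
      (Units.ne_zero _), Pool.Agent.Y742.AR.rep_inv (K := M) (𝒰 := 𝒰) (w j : BA M 𝒰)
      (Units.ne_zero _)] with t h2 h3 v
    have h4 : rp ((w j : BA M 𝒰)⁻¹) t = (rp (w j : BA M 𝒰) t)⁻¹ := h3
    rw [h4, one_mul, ← Real.log_le_iff_le_exp (D.av_pos v _ (inv_ne_zero h2)), av_inv _ _ h2]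
    exact (neg_le_abs _).trans (hwN v t j)
  have hyB : ∀ i, Bd D N 𝒰 (rp (y i)) := by
    intro i
    refine ⟨1, zero_le_one, Filter.Eventually.of_forall fun t v => ?_⟩
    rw [one_mul]
    by_cases h0 : rp (y i) t = 0
    · rw [h0, D.av_zero]
      exact (Real.exp_pos _).le
    · rw [← Real.log_le_iff_le_exp (D.av_pos v _ h0)]
      exact hyN v t i
  let wR : Fin r → (RA D 𝒰 N hN)ˣ := fun j =>
    { val := mkR (w j : BA M 𝒰) (hw𝒲 j).1 (hwB j)
      inv := mkR ((w j)⁻¹ : (BA M 𝒰)ˣ) (hw𝒲 j).2 (hwB' j)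
      val_inv := by
        apply vl_inj
        rw [vl_mul, vl_mkR, vl_mkR, vl_one]
        exact Units.mul_inv (w j)
      inv_val := by
        apply vl_inj
        rw [vl_mul, vl_mkR, vl_mkR, vl_one]
        exact Units.inv_mul (w j) }
  let yR : Fin n → RA D 𝒰 N hN := fun i => mkR (y i) (hy i) (hyB i)
  let V : ℝ := Fintype.card ((M ≃ₐ[ℚ] M) ⊕ Fin D.s)
  have hinj : Function.Injective (incA D 𝒰 N hN) := incA_inj D 𝒰 N hN
  have hψP : ∀ P : MvPolynomial (Fin r) M, incA D 𝒰 N hN (aeval (fun j => (wR j : RA D 𝒰 N hN)) P) =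
      aeval (fun j => (w j : BA M 𝒰)) P := by
    intro P
    have h3 : ((incA D 𝒰 N hN).comp (aeval fun j => (wR j : RA D 𝒰 N hN))) =
        aeval (fun j => (w j : BA M 𝒰)) := by
      ext i
      rw [AlgHom.comp_apply, aeval_X, aeval_X]
      rfl
    exact DFunLike.congr_fun h3 P
  have hwRAI : AlgebraicIndependent M (fun j => (wR j : RA D 𝒰 N hN)) := by
    have h1 : Function.Injective (aeval (R := M) fun j => (w j : BA M 𝒰)) := hwAI
    have h2 : Function.Injective (aeval (R := M) fun j => (wR j : RA D 𝒰 N hN)) := fun P Q h =>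
      h1 (by rw [← hψP, ← hψP, h])
    exact h2
  have hqR : ∀ i, aeval (fun j => (wR j : RA D 𝒰 N hN)) (q i) * yR i =
      aeval (fun j => (wR j : RA D 𝒰 N hN)) (p i) := by
    intro i
    apply hinj
    rw [map_mul, hψP, hψP]
    exact hqp i
  refine exists_fun (DcA hNt) hr wR hwRAI U a hspan p q hqU hpq hq yR hqR
    ⟨V, Nat.cast_nonneg _, ?_⟩ (not_neg_oneA hNt)
  intro ε hε
  filter_upwards [hNt.eventually_ge_atTop (V / ε)] with t ht
  rw [div_le_iff₀ hε] at ht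
  have h1 : ∑ v, ((N t) - V * s v t) ≤ ε * N t := by
    rw [Finset.sum_sub_distrib, ← Finset.mul_sum, Finset.sum_const, nsmul_eq_mul,
      Finset.card_univ]
    have h2 : (∑ v, s v t) = N t - 1 := by
      simp only [N]
      ring
    rw [h2]
    have h3 : ((Fintype.card ((M ≃ₐ[ℚ] M) ⊕ Fin D.s) : ℕ) : ℝ) = V := rfl
    rw [h3]
    linarith
  exact h1


end Pool.Agent.N754.FG
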