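import Mathlib

/-!
Statements: units of finitely generated domains (Roquette), specialisations which are injective on
units, coprimality under specialisation.
-/

set_option autoImplicit false

open MvPolynomial

namespace Pool.Agent.N754.FG

/-- the units of `M` which are, together with their inverses, integral over `ℤ[s]` -/
def IU {M : Type} [Field M] (s : Set M) : Subgroup Mˣ where
  carrier := {u | IsIntegral (Algebra.adjoin ℤ s) (u : M) ∧
    IsIntegral (Algebra.adjoin ℤ s) ((u⁻¹ : Mˣ) : M)}
  mul_mem' := by
    rintro a b ⟨h1, h2⟩ ⟨h3, h4⟩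
    refine ⟨?_, ?_⟩
    · rw [Units.val_mul]
      exact h1.mul h3
    · rw [mul_inv, Units.val_mul]
      exact h2.mul h4
  one_mem' := by
    refine ⟨?_, ?_⟩
    · rw [Units.val_one]
      exact isIntegral_one
    · rw [inv_one, Units.val_one]
      exact isIntegral_one
  inv_mem' := by
    rintro a ⟨h1, h2⟩
    exact ⟨h2, by rwa [inv_inv]⟩

/-- Roquette's theorem, the step: from finite extensions of `k` to finite extensions of `k(T)` -/
def RQ1 : Prop := ∀ (k M : Type) [Field k] [CharZero k] [Field M] (f : RatFunc k →+* M), f.Finite →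
  (∀ (κ : Type) [Field κ] [Algebra k κ] [FiniteDimensional k κ] (t : Set κ), t.Finite →
    (IU t).FG) →
  ∀ s : Set M, s.Finite → (IU s).FG

/-- Roquette's theorem for number fields -/
def RQ2 : Prop := ∀ (M : Type) [Field M] [NumberField M] (s : Set M), s.Finite → (IU s).FG

/-- Roquette's theorem for finitely generated fields of characteristic zero -/
def RQ3 : Prop := ∀ (R M : Type) [CommRing R] [IsDomain R] [CharZero R] [Algebra.FiniteType ℤ R]
  [Field M] [Algebra R M] [IsFractionRing R M] (s : Set M), s.Finite → (IU s).FG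

/-- specialisations to number fields which are injective on the units -/
def SP : Prop := ∀ (R : Type) [CommRing R] [IsDomain R] [CharZero R] [Algebra.FiniteType ℤ R]
  (h : R), h ≠ 0 → ∃ (F : Type) (_ : Field F) (_ : NumberField F) (φ : R →+* F), φ h ≠ 0 ∧
    ∀ u : Rˣ, φ u = 1 → u = 1

/-- coprime polynomials remain coprime under generic specialisations -/
def TR : Prop := ∀ (R K : Type) [CommRing R] [IsDomain R] [Field K] (i : R →+* K),
  Function.Injective i → ∀ (r : ℕ) (p q : MvPolynomial (Fin r) R), q ≠ 0 →
  IsRelPrime (map i q) (map i p) →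
  ∃ h : R, h ≠ 0 ∧ ∀ (L : Type) [Field L] (φ : R →+* L), φ h ≠ 0 →
    IsRelPrime (map φ q) (map φ p)

end Pool.Agent.N754.FG
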