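import Mathlib
import Pool.Agent.N754.FG.Stm
import Pool.Agent.N754.FG.FunA
import Pool.Agent.N754.LT.Grm

/-!
Germs of sequences with values in finitely generated subrings of the complex numbers, and their
specialisations.
-/

set_option autoImplicit false
set_option linter.unusedSectionVars false

open Finset MvPolynomial Filter

namespace Pool.Agent.N754.FG

open NumberField IsDedekindDomain
open Pool.Agent.N754.LT
open Pool.Agent.Y742.SF Pool.Agent.Y742.AR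

/-- a ring generated by a finite set -/
theorem ft_of_closure {R : Type} [CommRing R] (t : Set R) (ht : t.Finite)
    (h : Subring.closure t = ⊤) : Algebra.FiniteType ℤ R := by
  refine ⟨⟨ht.toFinset, ?_⟩⟩
  rw [ht.coe_toFinset, Algebra.adjoin_int, h]
  ext x
  simp

theorem ft_closure (s : Set ℂ) (hs : s.Finite) : Algebra.FiniteType ℤ (Subring.closure s) := by
  refine ft_of_closure ((↑) ⁻¹' s : Set (Subring.closure s)) ?_ ?_
  · exact hs.preimage Subtype.val_injective.injOn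
  · rw [eq_top_iff]
    rintro ⟨x, hx⟩ -
    induction hx using Subring.closure_induction with
    | mem x hx => exact Subring.subset_closure hx
    | zero => exact zero_mem _
    | one => exact one_mem _
    | add x y hx hy h1 h2 => exact add_mem h1 h2
    | neg x hx h1 => exact neg_mem h1
    | mul x y hx hy h1 h2 => exact mul_mem h1 h2

/-- specialisation to a number field with the extra structure used for germs -/
theorem spM (hSP : SP) (R : Type) [CommRing R] [IsDomain R] [CharZero R] [Algebra.FiniteType ℤ R]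
    (h : R) (hh : h ≠ 0) : ∃ (M : Type) (_ : Field M) (_ : NumberField M) (_ : IsGalois ℚ M)
      (D : PD M) (φ : R →+* M), φ h ≠ 0 ∧ (∀ u : Rˣ, φ u = 1 → u = 1) ∧ ∀ x, D.TInt (φ x) := by
  classical
  obtain ⟨F, hF1, hF2, φ0, h1, h2⟩ := hSP R h hh
  obtain ⟨M, hM1, hM2, hM3, hgal, hi⟩ := exists_big F
  let φ : R →+* M := (algebraMap F M).comp φ0
  obtain ⟨s, hs⟩ := (‹Algebra.FiniteType ℤ R›).out
  let S : Set (HeightOneSpectrum (𝓞 M)) := ⋃ x ∈ s, HeightOneSpectrum.Support (𝓞 M) (φ x)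
  have hS : S.Finite := Set.Finite.biUnion (Finset.finite_toSet s) fun x _ =>
    HeightOneSpectrum.Support.finite _ _
  obtain ⟨D, hD⟩ := exists_PD hi S hS
  refine ⟨M, hM1, hM2, hgal, D, φ, ?_, ?_, ?_⟩
  · exact (map_ne_zero (algebraMap F M)).2 h1
  · intro u hu
    apply h2
    apply (algebraMap F M).injective
    rw [map_one]
    exact hu
  · intro x
    have hx : x ∈ Algebra.adjoin ℤ (s : Set R) := by
      rw [hs]
      trivial
    induction hx using Algebra.adjoin_induction with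
    | mem x hx =>
      intro w hw
      rw [fv_le_one_iff]
      by_contra hcon
      have h3 : w ∈ S := by
        simp only [S, Set.mem_iUnion]
        exact ⟨x, hx, not_le.1 hcon⟩
      obtain ⟨v, hv⟩ := hD w h3
      exact hw v hv
    | algebraMap r =>
      have h3 : φ (algebraMap ℤ R r) = ((r : 𝓞 M) : M) := by simp
      rw [h3]
      exact D.TInt_int _
    | add x y _ _ hx hy =>
      rw [map_add]
      exact D.TInt_add _ _ hx hy
    | mul x y _ _ hx hy =>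
      rw [map_mul]
      exact D.TInt_mul _ _ hx hy

variable (𝒰 : Ultrafilter ℕ)

/-- complex germs -/
def BC : Type := GC ℕ 𝒰

noncomputable instance : Field (BC 𝒰) := inferInstanceAs (Field (GC ℕ 𝒰))

instance : IsAlgClosed (BC 𝒰) := inferInstanceAs (IsAlgClosed (GC ℕ 𝒰))

noncomputable instance : Algebra ℂ (BC 𝒰) :=
  RingHom.toAlgebra (S := BC 𝒰) ((gc 𝒰).comp (Pi.constRingHom ℕ ℂ))

/-- the germ of a sequence -/
noncomputable def gC : (ℕ → ℂ) →+* BC 𝒰 := gc 𝒰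

theorem gC_const (c : ℂ) : algebraMap ℂ (BC 𝒰) c = gC 𝒰 (fun _ => c) := rfl

theorem gC_eq (f g : ℕ → ℂ) : gC 𝒰 f = gC 𝒰 g ↔ ∀ᶠ t in (𝒰 : Filter ℕ), f t = g t := gc_eq 𝒰 f g

theorem gC_zero (f : ℕ → ℂ) : gC 𝒰 f = 0 ↔ ∀ᶠ t in (𝒰 : Filter ℕ), f t = 0 := gc_zero 𝒰 f

theorem gC_surj (x : BC 𝒰) : ∃ f : ℕ → ℂ, gC 𝒰 f = x := gc_surj 𝒰 x

/-- specialisations of germs -/
noncomputable def rpC : Rp ℂ (BC 𝒰) where
  T := ℕ
  G := 𝒰
  rep x := (gC_surj 𝒰 x).choose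
  rep_add x y := by
    have h : gC 𝒰 (gC_surj 𝒰 (x + y)).choose =
        gC 𝒰 ((gC_surj 𝒰 x).choose + (gC_surj 𝒰 y).choose) := by
      rw [map_add, (gC_surj 𝒰 (x + y)).choose_spec, (gC_surj 𝒰 x).choose_spec,
        (gC_surj 𝒰 y).choose_spec]
    exact (gC_eq 𝒰 _ _).1 h
  rep_mul x y := by
    have h : gC 𝒰 (gC_surj 𝒰 (x * y)).choose =
        gC 𝒰 ((gC_surj 𝒰 x).choose * (gC_surj 𝒰 y).choose) := by
      rw [map_mul, (gC_surj 𝒰 (x * y)).choose_spec, (gC_surj 𝒰 x).choose_spec,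
        (gC_surj 𝒰 y).choose_spec]
    exact (gC_eq 𝒰 _ _).1 h
  rep_const c := by
    have h : gC 𝒰 (gC_surj 𝒰 (algebraMap ℂ (BC 𝒰) c)).choose = gC 𝒰 (fun _ => c) := by
      rw [(gC_surj 𝒰 _).choose_spec, gC_const]
    exact (gC_eq 𝒰 _ _).1 h
  rep_ne x hx := by
    refine Ultrafilter.eventually_not.2 fun h => hx ?_
    have h1 := (gC_zero 𝒰 (gC_surj 𝒰 x).choose).2 h
    rwa [(gC_surj 𝒰 x).choose_spec] at h1

theorem rpC_rep (x : BC 𝒰) : gC 𝒰 ((rpC 𝒰).rep x) = x := (gC_surj 𝒰 x).choose_spec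

theorem rpC_gC (f : ℕ → ℂ) : ∀ᶠ t in (𝒰 : Filter ℕ), (rpC 𝒰).rep (gC 𝒰 f) t = f t :=
  (gC_eq 𝒰 _ _).1 (rpC_rep 𝒰 (gC 𝒰 f))

/-- roots of constants are constant -/
theorem tfC (g : (BC 𝒰)ˣ) (m : ℕ) (hm : 0 < m)
    (h : ∃ c : ℂ, ((g ^ m : (BC 𝒰)ˣ) : BC 𝒰) = algebraMap ℂ (BC 𝒰) c) :
    ∃ c : ℂ, (g : BC 𝒰) = algebraMap ℂ (BC 𝒰) c := by
  classical
  obtain ⟨c, hc⟩ := h
  obtain ⟨f, hf⟩ := gC_surj 𝒰 (g : BC 𝒰)
  rw [Units.val_pow_eq_pow_val, ← hf, ← map_pow, gC_const, gC_eq] at hc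
  let P : Polynomial ℂ := Polynomial.X ^ m - Polynomial.C c
  have hP : P ≠ 0 := Polynomial.X_pow_sub_C_ne_zero hm c
  have h1 : ∀ᶠ t in (𝒰 : Filter ℕ), ∃ z ∈ P.roots.toFinset, f t = z := by
    filter_upwards [hc] with t ht
    refine ⟨f t, ?_, rfl⟩
    rw [Multiset.mem_toFinset, Polynomial.mem_roots hP]
    simp only [P, Polynomial.IsRoot.def, Polynomial.eval_sub, Polynomial.eval_pow,
      Polynomial.eval_X, Polynomial.eval_C]
    rw [← ht]
    exact sub_self _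
  have h2 : ∃ z ∈ P.roots.toFinset, ∀ᶠ t in (𝒰 : Filter ℕ), f t = z := by
    have h3 := (Ultrafilter.finite_biUnion_mem_iff (f := 𝒰)
      (is := (P.roots.toFinset : Set ℂ)) (Finset.finite_toSet _)
      (s := fun z => {t | f t = z})).1 (by
        filter_upwards [h1] with t ht
        obtain ⟨z, hz, hz2⟩ := ht
        exact Set.mem_biUnion (x := z) hz hz2)
    obtain ⟨z, hz, hz2⟩ := h3
    exact ⟨z, hz, hz2⟩
  obtain ⟨z, -, hz⟩ := h2
  exact ⟨z, by rw [← hf, gC_const, gC_eq]; exact hz⟩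

section spec

variable {R : Subring ℂ}

/-- germs of sequences in `R` -/
noncomputable def PhC (R : Subring ℂ) : (ℕ → R) →+* BC 𝒰 := (gC 𝒰).comp (RingHom.compLeft R.subtype ℕ)

theorem PhC_apply (f : ℕ → R) : PhC 𝒰 R f = gC 𝒰 (fun t => (f t : ℂ)) := rfl

variable {M : Type} [Field M] [NumberField M] (φ : R →+* M)

/-- specialisations of germs of sequences in `R` -/
noncomputable def PhM : (ℕ → R) →+* BA M 𝒰 := (gm 𝒰).comp (RingHom.compLeft φ ℕ)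

theorem PhM_apply (f : ℕ → R) : PhM 𝒰 φ f = (gm 𝒰 (fun t => φ (f t)) : GK M 𝒰) := rfl

theorem PhM_eq (f : ℕ → R) (g : ℕ → R) :
    PhM 𝒰 φ f = PhM 𝒰 φ g ↔ ∀ᶠ t in (𝒰 : Filter ℕ), φ (f t) = φ (g t) := by
  rw [PhM_apply, PhM_apply]
  exact gm_eq 𝒰 _ _

theorem PhM_rep (f : ℕ → R) : ∀ᶠ t in (𝒰 : Filter ℕ), rep (K := M) (𝒰 := 𝒰) (PhM 𝒰 φ f) t = φ (f t) :=
  rep_gm (K := M) (fun t => φ (f t))

theorem PhM_const (c : R) : PhM 𝒰 φ (fun _ => c) = algebraMap M (BA M 𝒰) (φ c) := rfl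

theorem PhM_mem [IsGalois ℚ M] (D : PD M) (hD : ∀ x, D.TInt (φ x)) (f : ℕ → R) :
    PhM 𝒰 φ f ∈ TIR D 𝒰 := by
  rw [mem_TIR]
  refine ⟨1, one_ne_zero, ?_⟩
  filter_upwards [PhM_rep 𝒰 φ f] with t ht
  rw [ht]
  have h1 : ((1 : 𝓞 M) : M) = 1 := rfl
  rw [h1, one_mul]
  exact hD _

theorem PhM_unit_mem [IsGalois ℚ M] (D : PD M) (hD : ∀ x, D.TInt (φ x)) (u : (ℕ → R)ˣ) :
    Units.map (PhM 𝒰 φ : (ℕ → R) →* BA M 𝒰) u ∈ WA D 𝒰 := by
  rw [mem_WA]
  refine ⟨PhM_mem 𝒰 φ D hD _, ?_⟩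
  rw [← map_inv]
  exact PhM_mem 𝒰 φ D hD _

/-- units with constant specialisation are constant -/
theorem const_of_constM (hφ : ∀ u : Rˣ, φ u = 1 → u = 1) (u : (ℕ → R)ˣ)
    (h : ∃ c : M, PhM 𝒰 φ (u : ℕ → R) = algebraMap M (BA M 𝒰) c) :
    ∃ c : ℂ, PhC 𝒰 R (u : ℕ → R) = algebraMap ℂ (BC 𝒰) c := by
  obtain ⟨c, hc⟩ := h
  have h1 : ∀ᶠ t in (𝒰 : Filter ℕ), φ ((u : ℕ → R) t) = c := by
    have h2 : ∀ᶠ t in (𝒰 : Filter ℕ), rep (K := M) (𝒰 := 𝒰) (algebraMap M (BA M 𝒰) c) t = c :=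
      Pool.Agent.Y742.AR.rep_cg (K := M) (𝒰 := 𝒰) c
    filter_upwards [h2, PhM_rep 𝒰 φ (u : ℕ → R)] with t h3 h4
    rw [← h4, hc, h3]
  obtain ⟨t0, ht0⟩ := h1.exists
  refine ⟨((u : ℕ → R) t0 : ℂ), ?_⟩
  rw [PhC_apply, gC_const, gC_eq]
  let e : ℕ → Rˣ := MulEquiv.piUnits u
  have he : ∀ t, ((e t : Rˣ) : R) = (u : ℕ → R) t := fun t => rfl
  filter_upwards [h1] with t ht
  have h3 : φ ((e t * (e t0)⁻¹ : Rˣ) : R) = 1 := by
    have h4 : φ ((e t * (e t0)⁻¹ : Rˣ) : R) * φ (e t0 : R) = φ (e t0 : R) := by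
      rw [← map_mul, ← Units.val_mul, inv_mul_cancel_right, he, he, ht, ht0]
    have h5 : φ (e t0 : R) ≠ 0 := by
      intro h6
      have h7 := congrArg φ (Units.mul_inv (e t0))
      rw [map_mul, h6, zero_mul, map_one] at h7
      exact zero_ne_one h7
    exact mul_right_cancel₀ h5 (by rw [h4, one_mul])
  have h4 := hφ _ h3
  rw [mul_inv_eq_one] at h4
  rw [← he, ← he, h4]

end spec

end Pool.Agent.N754.FG
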