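import Mathlib
import Pool.Agent.N754.FG.Ger

/-!
The unit theorem for germs of sequences of units of finitely generated rings.
-/

set_option autoImplicit false
set_option linter.unusedSectionVars false

open Finset MvPolynomial Filter

namespace Pool.Agent.N754.FG

open NumberField IsDedekindDomain
open Pool.Agent.N754.LT
open Pool.Agent.Y742.SF Pool.Agent.Y742.AR

variable (𝒰 : Ultrafilter ℕ)

/-- the group of germs of sequences of units -/
noncomputable def WC (R : Subring ℂ) : Subgroup (BC 𝒰)ˣ :=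
  (Units.map (PhC 𝒰 R : (ℕ → R) →* BC 𝒰)).range

theorem mem_WC (R : Subring ℂ) (u : (BC 𝒰)ˣ) :
    u ∈ WC 𝒰 R ↔ ∃ v : (ℕ → R)ˣ, Units.map (PhC 𝒰 R : (ℕ → R) →* BC 𝒰) v = u := Iff.rfl

/-- change of rings -/
noncomputable def inR {R R' : Subring ℂ} (h : R ≤ R') : (ℕ → R) →+* (ℕ → R') :=
  RingHom.compLeft (Subring.inclusion h) ℕ

theorem PhC_inR {R R' : Subring ℂ} (h : R ≤ R') (f : ℕ → R) :
    PhC 𝒰 R' (inR h f) = PhC 𝒰 R f := rfl

theorem WC_mono {R R' : Subring ℂ} (h : R ≤ R') : WC 𝒰 R ≤ WC 𝒰 R' := by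
  rintro _ ⟨v, rfl⟩
  refine ⟨Units.map (inR h : (ℕ → R) →* (ℕ → R')) v, ?_⟩
  ext
  rfl

theorem unitC (hSP : SP) (s : Set ℂ) (hs : s.Finite) (m : ℕ) (g : Fin m → (BC 𝒰)ˣ)
    (hg : ∀ i, g i ∈ WC 𝒰 (Subring.closure s))
    (hne : ∀ i j, i ≠ j → ∀ c : ℂ, (g i : BC 𝒰) ≠ algebraMap ℂ (BC 𝒰) c * g j)
    (c : Fin m → ℂ) (hc : ∑ i, algebraMap ℂ (BC 𝒰) (c i) * g i = 0) : c = 0 := by
  classical
  by_contra hc0
  obtain ⟨i0, hi0⟩ := Function.ne_iff.1 hc0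
  let s' : Set ℂ := s ∪ Set.range c
  have hs' : s'.Finite := hs.union (Set.finite_range c)
  set R : Subring ℂ := Subring.closure s' with hR
  have hle : Subring.closure s ≤ R := Subring.closure_mono Set.subset_union_left
  have hft : Algebra.FiniteType ℤ R := ft_closure s' hs'
  have hcR : ∀ i, c i ∈ R := fun i => Subring.subset_closure (Or.inr ⟨i, rfl⟩)
  have hi0' : (⟨c i0, hcR i0⟩ : R) ≠ 0 := fun h => hi0 (congrArg Subtype.val h)
  obtain ⟨M, hM1, hM2, hM3, D, φ, h1, h2, h3⟩ := spM hSP R ⟨c i0, hcR i0⟩ hi0'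
  have hg' := fun i => (mem_WC 𝒰 R (g i)).1 (WC_mono 𝒰 hle (hg i))
  choose u hu using hg'
  have huv : ∀ i, PhC 𝒰 R (u i : ℕ → R) = g i := fun i => by
    rw [← hu i]
    rfl
  let g' : Fin m → (BA M 𝒰)ˣ := fun i => Units.map (PhM 𝒰 φ : (ℕ → R) →* BA M 𝒰) (u i)
  have hg'v : ∀ i, (g' i : BA M 𝒰) = PhM 𝒰 φ (u i : ℕ → R) := fun i => rfl
  have h4 := unitA D 𝒰 m g' (fun i => PhM_unit_mem 𝒰 φ D h3 (u i)) (by
    intro i j hij a ha
    have h5 : PhM 𝒰 φ ((u i * (u j)⁻¹ : (ℕ → R)ˣ) : ℕ → R) = algebraMap M (BA M 𝒰) a := by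
      rw [Units.val_mul, map_mul, ← hg'v, ha, mul_assoc, hg'v, ← map_mul, Units.mul_inv, map_one,
        mul_one]
    obtain ⟨b, hb⟩ := const_of_constM 𝒰 φ h2 (u i * (u j)⁻¹) ⟨a, h5⟩
    apply hne i j hij b
    rw [← hb, ← huv i, ← huv j, ← map_mul, Units.val_mul, mul_assoc, Units.inv_mul, mul_one])
    (fun i => φ ⟨c i, hcR i⟩) (by
    have h5 : PhC 𝒰 R (∑ i, (fun _ => (⟨c i, hcR i⟩ : R)) * (u i : ℕ → R)) = 0 := by
      rw [map_sum, ← hc]
      refine Finset.sum_congr rfl fun i _ => ?_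
      rw [map_mul, huv]
      rfl
    have h6 : PhM 𝒰 φ (∑ i, (fun _ => (⟨c i, hcR i⟩ : R)) * (u i : ℕ → R)) = PhM 𝒰 φ 0 := by
      rw [PhM_eq]
      rw [PhC_apply, gC_zero] at h5
      filter_upwards [h5] with t ht
      congr 1
      apply Subtype.ext
      rw [ht]
      rfl
    rw [map_zero, map_sum] at h6
    rw [← h6]
    refine Finset.sum_congr rfl fun i _ => ?_
    rw [map_mul, PhM_const, hg'v])
  exact h1 (congrFun h4 i0)

end Pool.Agent.N754.FG
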